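import Pool.Agent.H.MP_e70507.A

set_option autoImplicit false
open Set Function Topology Filter

namespace Pool.Agent.Results.MP_e70507_gt.Both
open Pool.Agent.H.MP_e70507
universe u v

/-- countable tightness -/
def CT (Z : Type u) [TopologicalSpace Z] : Prop :=
  ∀ (S : Set Z) (z : Z), z ∈ closure S → ∃ T ⊆ S, T.Countable ∧ z ∈ closure T

theorem result (X : Type u) [TopologicalSpace X] [T35Space X] (K : Type v) [TopologicalSpace K]
    [CompactSpace K] [T2Space K] :
    ((∀ A : Set (X → ℝ), (∀ f ∈ A, Continuous f) → IsCompact A → CT A) →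
      ∀ B : Set (X × K → ℝ), (∀ f ∈ B, Continuous f) → IsCompact B → CT B) ∧
    ((∀ A : Set (X → ℝ), (∀ f ∈ A, Continuous f) → IsCompact A → FrechetUrysohnSpace A) →
      ∀ B : Set (X × K → ℝ), (∀ f ∈ B, Continuous f) → IsCompact B → FrechetUrysohnSpace B) := by
  refine ⟨fun H B b1 b2 => ?_, fun H B b1 b2 => ?_⟩
  all_goals
    have := isCompact_iff_compactSpace.1 b2
    let v : B → C(X × K, ℝ) := fun b => ⟨b.1, b1 _ b.2⟩
    have hv : ∀ p, Continuous fun b => v b p := fun p =>
      (continuous_apply p).comp continuous_subtype_val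
    have hi : Injective v := fun a b h => Subtype.ext (congrArg DFunLike.coe h)
  · refine tight v hv hi fun θ t1 t2 S c hc => ?_
    obtain ⟨T, k1, k2, k3⟩ := H (range θ) (forall_mem_range.2 t2) (isCompact_range t1) _ _
      (map_mem_closure (f := rangeFactorization θ) (t1.subtype_mk _) hc (mapsTo_image _ _))
    choose w w1 w2 using fun t : T => k1 t.2
    have := k2.to_subtype
    exact ⟨range w, range_subset_iff.2 w1, countable_range _, map_mem_closure
      (f := (Subtype.val : range θ → _)) continuous_subtype_val k3 fun t ht =>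
        ⟨w ⟨t, ht⟩, mem_range_self _, congrArg Subtype.val (w2 ⟨t, ht⟩)⟩⟩
  · refine fu v hv hi fun θ t1 t2 S c hc => ?_
    have := H (range θ) (forall_mem_range.2 t2) (isCompact_range t1)
    obtain ⟨u, u1, u2⟩ := mem_closure_iff_seq_limit.1
      (map_mem_closure (f := rangeFactorization θ) (t1.subtype_mk _) hc (mapsTo_image _ _))
    choose w w1 w2 using u1
    exact ⟨w, w1, (tendsto_subtype_rng.1 u2).congr fun n => congrArg Subtype.val (w2 n).symm⟩

end Pool.Agent.Results.MP_e70507_gt.Both
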